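import Mathlib
import Pool.Agent.R945.LD.BThree
import Pool.Agent.R945.LD.OneB

set_option autoImplicit false

namespace Pool.Agent.Results.MP_c81705_nt.QOneAllPrimesH93

open Finset Matrix Pool.Agent.R945.LD NumberField Module

/-- the matrix of the determinant `D_p` of Q1, over a commutative ring `R` with given elements
`x, y, z, w` (in the problem `R = ℤ[x, y, z, w]`) -/
def D (p : ℕ) [Fact p.Prime] {R : Type} [CommRing R] (x y z w : R) :
    Matrix (Fin ((p - 1) / 2 + 1)) (Fin ((p - 1) / 2 + 1)) R :=
  Matrix.of fun j k =>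
    x + (legendreSym p ((j : ℤ) + (k : ℤ)) : R)
      + (legendreSym p ((j : ℤ) - (k : ℤ)) : R)
      + (legendreSym p (j : ℤ) : R) * y
      + (legendreSym p (k : ℤ) : R) * z
      + (legendreSym p ((j : ℤ) * (k : ℤ)) : R) * w

/-- the linear function `t ↦ det (A - 2 c 1ᵀ + t c cᵀ)` -/
lemma det_lin (p : ℕ) [Fact p.Prime] {m : ℕ} (hm : p = 2 * m + 1) {R : Type*} [CommRing R]
    (t : R) :
    (Matrix.of fun j k : Fin m => Bm p m R j k - 2 * xv p m R j
      + t * (xv p m R j * xv p m R k)).det =
      (Bm p m R).det * ((p : R) - t * ∑ j, xv p m R j) := by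
  have h1 : (Matrix.of fun j k : Fin m => Bm p m R j k - 2 * xv p m R j
      + t * (xv p m R j * xv p m R k)) =
      Bm p m R * (1 + replicateCol Unit (fun _ => (1 : R)) *
        replicateRow Unit (fun k => 2 - t * xv p m R k)) := by
    rw [Matrix.mul_add, Matrix.mul_one, ← Matrix.mul_assoc]
    ext j k
    rw [Matrix.of_apply, Matrix.add_apply, sub_add]
    rw [sub_eq_add_neg]
    congr 1
    rw [Matrix.mul_apply]
    simp only [Finset.univ_unique, Finset.sum_singleton, replicateRow_apply, Matrix.mul_apply,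
      replicateCol_apply, mul_one]
    have h := congrArg (Int.cast : ℤ → R) (sum_B hm (R945.LD.J p j))
    simp only [Bm, Matrix.of_apply, xv]
    rw [← Int.cast_sum, h]
    push_cast
    ring
  rw [h1, det_mul, det_one_add_replicateCol_mul_replicateRow]
  congr 1
  simp only [dotProduct, mul_one, Finset.sum_sub_distrib, Finset.sum_const, Finset.card_univ,
    Fintype.card_fin, ← Finset.mul_sum, nsmul_eq_mul]
  have hpR : (p : R) = 2 * (m : R) + 1 := by
    rw [hm]; push_cast; ring
  rw [hpR]
  ring

/-- the bordered determinant for `p = 3 mod 4` in terms of `det A` and the half sum -/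
lemma det_big_three (p : ℕ) [Fact p.Prime] {m : ℕ} (hm : p = 2 * m + 1) {R : Type*} [CommRing R]
    (x y z w : R) :
    (bd x (fun k => z * xv p m R k + x) (fun j => (y + 2) * xv p m R j + x)
      (Matrix.of fun j k : Fin m => x + Bm p m R j k + xv p m R j * y + xv p m R k * z
        + xv p m R j * xv p m R k * w)).det =
      (Bm p m R).det * ((p : R) * x + ((y + 2) * z - w * x) * ∑ j, xv p m R j) := by
  have e : (Matrix.of fun j k : Fin m => x + Bm p m R j k + xv p m R j * y + xv p m R k * z
        + xv p m R j * xv p m R k * w) =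
      (Matrix.of fun j k : Fin m =>
        (Matrix.of fun j k : Fin m => Bm p m R j k - 2 * xv p m R j
          + w * (xv p m R j * xv p m R k)) j k + (y + 2) * xv p m R j + z * xv p m R k + x) := by
    ext j k
    simp only [Matrix.of_apply]
    ring
  rw [e, bd_elim, bd_corner, bd_scale, bd_zero, det_lin p hm]
  have e2 : (Matrix.of fun j k : Fin m =>
      (Matrix.of fun j k : Fin m => Bm p m R j k - 2 * xv p m R j
          + w * (xv p m R j * xv p m R k)) j k - xv p m R j * xv p m R k) =
      (Matrix.of fun j k : Fin m => Bm p m R j k - 2 * xv p m R j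
          + (w - 1) * (xv p m R j * xv p m R k)) := by
    ext j k
    simp only [Matrix.of_apply]
    ring
  rw [e2, det_lin p hm]
  ring

lemma half_sum (p : ℕ) [Fact p.Prime] (h5 : 5 ≤ p) (h3 : p % 4 = 3) (m : ℕ) (hm : p = 2 * m + 1)
    (K : Type) [Field K] [NumberField K] (h2 : finrank ℚ K = 2) (β : K) (hβ : β ^ 2 = -(p : K)) :
    ∑ j, xv p m ℤ j = (2 - q p 2) * (classNumber K : ℤ) := by
  have h1 := Pool.Agent.R441.CN.classNumber_three h5 h3 K h2 β hβ
  have h4 := Pool.Agent.R343.CFP.S_T p h3
  have h6 := Pool.Agent.R343.CFP.S_range p m hm (by omega)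
  have h7 : ∑ j, xv p m ℤ j = Pool.Agent.R343.CFP.S p := by
    rw [h6, ← Fin.sum_univ_eq_sum_range (fun s => jacobiSym ((s + 1 : ℕ) : ℤ) p)]
    apply Finset.sum_congr rfl
    intro j _
    rw [← jacobiSym.legendreSym.to_jacobiSym]
    simp only [xv, R945.LD.J, Int.cast_id]
    unfold legendreSym
    push_cast
    rfl
  have h8 : jacobiSym 2 p = q p 2 := by
    rw [← jacobiSym.legendreSym.to_jacobiSym]
    unfold legendreSym
    push_cast
    rfl
  rw [h7]
  have hp0 : (p : ℤ) ≠ 0 := by omega
  apply mul_left_cancel₀ hp0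
  rw [h4, h8]
  linear_combination (-(2 - q p 2)) * h1

/-- Q1 for `p = 1 mod 4` -/
lemma case_one (p : ℕ) [Fact p.Prime] (hp : p % 4 = 1) (R : Type) [CommRing R] (x y z w : R) :
    (D p x y z w).det = (legendreSym p 2 : R) * (p : R) ^ ((p + 3) / 4) * x := by
  have hpp : p.Prime := Fact.out
  obtain ⟨m, hm⟩ : ∃ m, p = 2 * m + 1 := ⟨p / 2, by omega⟩
  have hp5 : 5 ≤ p := by
    have := hpp.two_le
    omega
  have hm1 : (p - 1) / 2 = m := by omega
  have hq5 : (p + 3) / 4 = (m / 2 - 1) + 2 := by omega
  have hL : ∀ a : ℤ, legendreSym p a = q p (a : ZMod p) := fun a => rfl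
  unfold D
  rw [hm1, hq5]
  have e : (Matrix.of fun j k : Fin (m + 1) =>
        x + (legendreSym p ((j : ℤ) + (k : ℤ)) : R)
          + (legendreSym p ((j : ℤ) - (k : ℤ)) : R)
          + (legendreSym p (j : ℤ) : R) * y
          + (legendreSym p (k : ℤ) : R) * z
          + (legendreSym p ((j : ℤ) * (k : ℤ)) : R) * w) =
      bd x (fun k => (z + 2) * xv p m R k + x) (fun j => (y + 2) * xv p m R j + x)
      (Matrix.of fun j k : Fin m => x + Bm p m R j k + xv p m R j * y + xv p m R k * z
      + xv p m R j * xv p m R k * w) := by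
    apply eq_bd
    · simp [hL, q_zero]
    · intro k
      simp only [Matrix.of_apply, hL, xv, Fin.val_zero, Fin.val_succ]
      push_cast
      rw [zero_add, zero_sub, q_even hp, q_zero, zero_mul, q_zero]
      simp only [R945.LD.J]
      push_cast
      ring
    · intro j
      simp only [Matrix.of_apply, hL, xv, Fin.val_zero, Fin.val_succ]
      push_cast
      rw [add_zero, sub_zero, q_zero, mul_zero, q_zero]
      simp only [R945.LD.J]
      push_cast
      ring
    · intro j k
      simp only [Matrix.of_apply, hL, xv, Fin.val_succ, Bm]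
      push_cast
      rw [q_mul]
      simp only [R945.LD.J]
      push_cast
      ring
  rw [e, det_big hp hm, ← Bm_cast, det_B hp hm]
  have h2 : legendreSym p 2 = - (-1) ^ (m / 2 - 1) := by
    rw [legendreSym.at_two (by omega : p ≠ 2), ZMod.χ₈_nat_eq_if_mod_eight, if_neg (by omega)]
    have hm4 : 2 ≤ m := by omega
    rcases Nat.even_or_odd (m / 2 - 1) with h | h
    · rw [if_neg (by obtain ⟨r, hr⟩ := h; omega), h.neg_one_pow]
    · rw [if_pos (by obtain ⟨r, hr⟩ := h; omega), h.neg_one_pow]; norm_num
  rw [h2]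
  push_cast
  rw [neg_pow (p : R) (m / 2 - 1), pow_add]
  ring

/-- Q1 for `p = 3 mod 4` -/
lemma case_three (p : ℕ) [Fact p.Prime] (h5 : 3 < p) (h3 : p % 4 = 3)
    (K : Type) [Field K] [NumberField K] (h2 : finrank ℚ K = 2) (β : K) (hβ : β ^ 2 = -(p : K))
    (R : Type) [CommRing R] (x y z w : R) :
    (D p x y z w).det = (-1) ^ ((classNumber K - 1) / 2) * (p : R) ^ ((p - 3) / 4) *
      ((p : R) * x + (2 - (legendreSym p 2 : R)) * (classNumber K : R) *
        ((y + 2) * z - w * x)) := by
  have hpp : p.Prime := Fact.out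
  obtain ⟨m, hm⟩ : ∃ m, p = 2 * m + 1 := ⟨p / 2, by omega⟩
  have hm1 : (p - 1) / 2 = m := by omega
  have hL : ∀ a : ℤ, legendreSym p a = q p (a : ZMod p) := fun a => rfl
  unfold D
  rw [hm1]
  have e : (Matrix.of fun j k : Fin (m + 1) =>
        x + (legendreSym p ((j : ℤ) + (k : ℤ)) : R)
          + (legendreSym p ((j : ℤ) - (k : ℤ)) : R)
          + (legendreSym p (j : ℤ) : R) * y
          + (legendreSym p (k : ℤ) : R) * z
          + (legendreSym p ((j : ℤ) * (k : ℤ)) : R) * w) =
      bd x (fun k => z * xv p m R k + x) (fun j => (y + 2) * xv p m R j + x)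
      (Matrix.of fun j k : Fin m => x + Bm p m R j k + xv p m R j * y + xv p m R k * z
      + xv p m R j * xv p m R k * w) := by
    apply eq_bd
    · simp [hL, q_zero]
    · intro k
      simp only [Matrix.of_apply, hL, xv, Fin.val_zero, Fin.val_succ]
      push_cast
      rw [zero_add, zero_sub, q_odd h3, q_zero, zero_mul, q_zero]
      simp only [R945.LD.J]
      push_cast
      ring
    · intro j
      simp only [Matrix.of_apply, hL, xv, Fin.val_zero, Fin.val_succ]
      push_cast
      rw [add_zero, sub_zero, q_zero, mul_zero, q_zero]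
      simp only [R945.LD.J]
      push_cast
      ring
    · intro j k
      simp only [Matrix.of_apply, hL, xv, Fin.val_succ, Bm]
      push_cast
      rw [q_mul]
      simp only [R945.LD.J]
      push_cast
      ring
  have hS := half_sum p (by omega) h3 m hm K h2 β hβ
  have hSR : ∑ j, xv p m R j = (2 - (legendreSym p 2 : R)) * (classNumber K : R) := by
    have h := congrArg (Int.cast : ℤ → R) hS
    have h9 : legendreSym p 2 = q p 2 := by unfold legendreSym; push_cast; rfl
    rw [h9]
    push_cast at h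
    rw [← h]
    apply Finset.sum_congr rfl
    intro j _
    simp [xv]
  rw [e, det_big_three p hm, ← Bm_cast, det_B_three h3 hm (by omega) (classNumber K) hS, hSR]
  push_cast
  ring

/-- **Q1 for all primes `p > 3`.**  `K` is any number field of degree two which contains a square
root of `-p`, that is `ℚ(√-p)`, and `classNumber K` is `h(-p)`. -/
theorem result (p : ℕ) [Fact p.Prime] (h5 : 3 < p) :
    (p % 4 = 1 → ∀ (R : Type) [CommRing R] (x y z w : R),
      (D p x y z w).det = (legendreSym p 2 : R) * (p : R) ^ ((p + 3) / 4) * x) ∧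
    (p % 4 = 3 → ∀ (K : Type) [Field K] [NumberField K], finrank ℚ K = 2 →
      (∃ β : K, β ^ 2 = -(p : K)) → ∀ (R : Type) [CommRing R] (x y z w : R),
      (D p x y z w).det = (-1) ^ ((classNumber K - 1) / 2) * (p : R) ^ ((p - 3) / 4) *
        ((p : R) * x + (2 - (legendreSym p 2 : R)) * (classNumber K : R) *
          ((y + 2) * z - w * x))) :=
  ⟨fun h => case_one p h, fun h3 K _ _ h2 ⟨β, hβ⟩ => case_three p h5 h3 K h2 β hβ⟩

end Pool.Agent.Results.MP_c81705_nt.QOneAllPrimesH93
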